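import Pool.Agent.Helper17.SL.GoalsZE

/-! Packet ZE2 (helper17, project SL): `|σ| ≤ ht P + |s|` for a maximal independent set `s` modulo a prime `P`. -/

namespace Pool.Agent.Helper17.SL.PkZE2

open MvPolynomial Module

universe u v w

theorem height_map_C_ge {R : Type w} [CommRing R] (q : Ideal R) [q.IsPrime] :
    q.height ≤ (q.map (Polynomial.C : R →+* Polynomial R)).height := by
  have h := Order.height_le_height_apply_of_strictMono
    (fun p : PrimeSpectrum R ↦ (⟨p.asIdeal.map (Polynomial.C : R →+* Polynomial R),
      Ideal.isPrime_map_C_of_isPrime⟩ : PrimeSpectrum (Polynomial R))) ?_ ⟨q, inferInstance⟩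
  · rw [← PrimeSpectrum.height_eq_orderHeight, ← PrimeSpectrum.height_eq_orderHeight] at h
    exact h
  · intro p p' hp
    have hle : p.asIdeal ≤ p'.asIdeal := hp.le
    have hne : ¬ p'.asIdeal ≤ p.asIdeal := fun hh ↦ hp.not_ge hh
    refine lt_of_le_not_ge (Ideal.map_mono hle) fun hh ↦ hne fun z hz ↦ ?_
    have h1 : (Polynomial.C z : Polynomial R) ∈ p.asIdeal.map (Polynomial.C : R →+* Polynomial R) :=
      hh (Ideal.mem_map_of_mem _ hz)
    have h2 := Ideal.mem_map_C_iff.1 h1 0
    simpa using h2

section

variable {K : Type u} [Field K] {σ : Type v} (x : σ) [DecidableEq σ]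

/-- the variable `x` as main variable -/
noncomputable def eq' : MvPolynomial σ K ≃ₐ[K] Polynomial (MvPolynomial {y // y ≠ x} K) :=
  (renameEquiv K (Equiv.optionSubtypeNe x).symm).trans (optionEquivLeft K {y // y ≠ x})

theorem eq'_x : eq' (K := K) x (X x) = Polynomial.X := by
  simp [eq']

theorem eq'_ne (y : σ) (h : y ≠ x) : eq' (K := K) x (X y) = Polynomial.C (X ⟨y, h⟩) := by
  simp [eq', h]

theorem eq'_rename (p : MvPolynomial {y // y ≠ x} K) :
    eq' (K := K) x (rename Subtype.val p) = Polynomial.C p := by
  have : ((eq' (K := K) x).toAlgHom.comp (rename Subtype.val)) =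
      (Polynomial.CAlgHom : MvPolynomial {y // y ≠ x} K →ₐ[MvPolynomial {y // y ≠ x} K] _).restrictScalars K := by
    apply MvPolynomial.algHom_ext
    intro y
    simp [eq'_ne x y.1 y.2]
  have := DFunLike.congr_fun this p
  simpa using this

theorem coeff_supported (s : Set σ) (f : MvPolynomial σ K) (hf : f ∈ supported K (insert x s)) (n : ℕ) :
    (eq' (K := K) x f).coeff n ∈ supported K {y : {y // y ≠ x} | y.1 ∈ s} := by
  set S := supported K {y : {y // y ≠ x} | y.1 ∈ s} with hS
  have h1 : supported K (insert x s) ≤
      ((Polynomial.mapAlgHom S.val).range : Subalgebra K (Polynomial (MvPolynomial {y // y ≠ x} K))).comap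
        (eq' (K := K) x).toAlgHom := by
    rw [supported_eq_adjoin_X]
    refine Algebra.adjoin_le ?_
    rintro _ ⟨y, hy, rfl⟩
    by_cases hyx : y = x
    · subst hyx
      refine ⟨Polynomial.X, ?_⟩
      simp [eq'_x]
    · have hys : y ∈ s := hy.resolve_left hyx
      refine ⟨Polynomial.C ⟨X ⟨y, hyx⟩, X_mem_supported.2 hys⟩, ?_⟩
      simp [eq'_ne x y hyx]
  obtain ⟨q, hq⟩ := h1 hf
  have h2 : eq' (K := K) x f = Polynomial.mapAlgHom S.val q := hq.symm
  rw [h2]
  simp

end

theorem main : ∀ (n : ℕ) (K : Type u) [Field K] (σ : Type v) [Fintype σ] [DecidableEq σ]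
    (P : Ideal (MvPolynomial σ K)) (s : Finset σ), P.IsPrime → Indep P s →
    (∀ x ∉ s, ¬ Indep P (insert x s)) → Fintype.card σ = s.card + n → (n : ℕ∞) ≤ P.height := by
  intro n
  induction n with
  | zero => intros; simp
  | succ n ih =>
    intro K _ σ _ _ P s hP hs hmax hcard
    obtain ⟨x, hx⟩ : ∃ x, x ∉ s := by
      by_contra hc
      push Not at hc
      have : s = Finset.univ := Finset.eq_univ_of_forall hc
      rw [this, Finset.card_univ] at hcard
      omega
    have := hP
    set e := (eq' (K := K) x).toRingEquiv with he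
    set Pe : Ideal (Polynomial (MvPolynomial {y // y ≠ x} K)) := P.comap e.symm with hPe
    have hPep : Pe.IsPrime := Ideal.IsPrime.comap _
    have hht : Pe.height = P.height := RingEquiv.height_comap e.symm P
    set P' : Ideal (MvPolynomial {y // y ≠ x} K) := Pe.comap Polynomial.C with hP'
    have hP'p : P'.IsPrime := Ideal.IsPrime.comap _
    have memP' : ∀ p, p ∈ P' ↔ rename Subtype.val p ∈ P := by
      intro p
      rw [hP', Ideal.mem_comap, hPe, Ideal.mem_comap, ← eq'_rename]
      have : e.symm (eq' (K := K) x (rename Subtype.val p)) = rename Subtype.val p :=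
        (eq' (K := K) x).symm_apply_apply _
      rw [this]
    set s' : Finset {y // y ≠ x} := s.subtype (· ≠ x) with hs'
    have hcs' : (s' : Set {y // y ≠ x}) = {y | y.1 ∈ s} := by
      ext y; simp [hs']
    have hinj : Function.Injective (rename (R := K) (Subtype.val : {y // y ≠ x} → σ)) :=
      rename_injective _ Subtype.val_injective
    have hren : ∀ (t : Set σ) (f : MvPolynomial {y // y ≠ x} K),
        f ∈ supported K {y : {y // y ≠ x} | y.1 ∈ t} → rename Subtype.val f ∈ supported K t := by
      intro t f hf
      have h1 : supported K {y : {y // y ≠ x} | y.1 ∈ t} ≤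
          (supported K t).comap (rename Subtype.val) := by
        rw [supported_eq_adjoin_X]
        refine Algebra.adjoin_le ?_
        rintro _ ⟨y, hy, rfl⟩
        show rename Subtype.val (X y) ∈ supported K t
        rw [rename_X]
        exact X_mem_supported.2 hy
      exact h1 hf
    have hI' : Indep P' s' := by
      intro f hf hfP
      rw [hcs'] at hf
      have h1 := hs _ (hren (s : Set σ) f hf) ((memP' f).1 hfP)
      exact hinj (by rw [h1, map_zero])
    have hmax' : ∀ y ∉ s', ¬ Indep P' (insert y s') := by
      intro y hy hc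
      have hys : y.1 ∉ s := by
        intro h; apply hy; simp [hs', h]
      refine hmax y.1 hys ?_
      intro f hf hfP
      -- f is a rename
      obtain ⟨g, hg⟩ : ∃ g : MvPolynomial {y // y ≠ x} K, g ∈ supported K {z : {y // y ≠ x} | z.1 ∈ (insert y.1 s : Finset σ)} ∧
          rename Subtype.val g = f := by
        have h1 : supported K ((insert y.1 s : Finset σ) : Set σ) ≤
            (supported K {z : {y // y ≠ x} | z.1 ∈ (insert y.1 s : Finset σ)}).map (rename Subtype.val) := by
          rw [supported_eq_adjoin_X]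
          refine Algebra.adjoin_le ?_
          rintro _ ⟨z, hz, rfl⟩
          have hzx : z ≠ x := by
            rintro rfl
            rcases Finset.mem_insert.1 (Finset.mem_coe.1 hz) with h | h
            · exact y.2 h.symm
            · exact hx h
          exact ⟨X ⟨z, hzx⟩, X_mem_supported.2 hz, rename_X _ _⟩
        exact h1 hf
      have hg1 : g ∈ supported K ((insert y s' : Finset {y // y ≠ x}) : Set {y // y ≠ x}) := by
        have : ((insert y s' : Finset {y // y ≠ x}) : Set {y // y ≠ x}) =
            {z : {y // y ≠ x} | z.1 ∈ (insert y.1 s : Finset σ)} := by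
          ext z
          simp [hs', Subtype.ext_iff]
        rw [this]; exact hg.1
      have h2 := hc g hg1 ((memP' g).2 (by rw [hg.2]; exact hfP))
      rw [← hg.2, h2, map_zero]
    have hcard' : Fintype.card {y // y ≠ x} = s'.card + n := by
      have h1 : Fintype.card {y // y ≠ x} = Fintype.card σ - 1 := by
        simp [Fintype.card_subtype_compl]
      have h2 : s'.card = s.card := by
        rw [hs', Finset.card_subtype, Finset.filter_true_of_mem]
        intro z hz hzx
        exact hx (hzx ▸ hz)
      omega
    have h3 := ih K {y // y ≠ x} P' s' hP'p hI' hmax' hcard'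
    have hlt : P'.map (Polynomial.C : _ →+* Polynomial (MvPolynomial {y // y ≠ x} K)) < Pe := by
      refine lt_of_le_not_ge (Ideal.map_le_iff_le_comap.2 le_rfl) fun hle ↦ ?_
      refine hmax x hx ?_
      intro f hf hfP
      have h4 : (eq' (K := K) x f) ∈ Pe := by
        rw [hPe, Ideal.mem_comap]
        have : e.symm (eq' (K := K) x f) = f := (eq' (K := K) x).symm_apply_apply _
        rw [this]; exact hfP
      have h5 := Ideal.mem_map_C_iff.1 (hle h4)
      have h6 : eq' (K := K) x f = 0 := by
        ext1 k
        rw [Polynomial.coeff_zero]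
        refine hI' _ ?_ (h5 k)
        rw [hcs']
        refine coeff_supported x (s : Set σ) f ?_ k
        rwa [Finset.coe_insert] at hf
      exact (map_eq_zero_iff _ (eq' (K := K) x).injective).1 h6
    have h7 := Ideal.height_add_one_le_of_lt_of_isPrime hlt
    rw [← hht]
    push_cast
    calc (n : ℕ∞) + 1 ≤ P'.height + 1 := by gcongr
      _ ≤ _ := by gcongr; exact height_map_C_ge P'
      _ ≤ _ := h7

theorem thm : S_ZE2.{u, v} := by
  classical
  intro K _ σ _ P s₀ hP h0
  obtain ⟨s, hs0, hs⟩ := Finite.exists_le_maximal (p := fun s : Finset σ ↦ Indep P s) h0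
  refine ⟨s, hs0, hs.prop, ?_⟩
  have hmax : ∀ x ∉ s, ¬ Indep P (insert x s) := by
    intro x hx hc
    exact hx (hs.le_of_ge hc (Finset.subset_insert x s) (Finset.mem_insert_self x s))
  obtain ⟨n, hn⟩ := Nat.exists_eq_add_of_le (Finset.card_le_univ s)
  have := main n K σ P s hP hs.prop hmax hn
  rw [hn, Nat.cast_add, add_comm]
  gcongr

end Pool.Agent.Helper17.SL.PkZE2
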